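import Pool.Agent.Helper10.Qc.Stmts

set_option autoImplicit false

namespace Pool.Agent.Helper10.Qc

open Pool.Agent.Helper19.Qh Pool.Agent.Helper19.Qc

theorem st_CENT (h : ST_TOPI) : ST_CENT := by
  intro p hp s
  set z : Q := p.1 + s with hz
  set a : Q := hq 0 (-⌊z.imI⌋) (-⌊z.imJ⌋) (-⌊z.imK⌋) with ha
  have hNO : NO a 0 := by
    refine ⟨hq_mem _ _ _ _, HO.zero_mem, ?_⟩
    rw [ha, hq_re, norm_zero]
    simp
  have hact : act (T a 0) p = (p.1 + a, p.2) := by
    rw [act_T, hin1]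
    refine Prod.ext ?_ ?_
    · change p.1 - p.2 0 * star (0 : Q) + a = p.1 + a
      rw [star_zero, mul_zero, sub_zero]
    · change p.2 + 0 = p.2
      rw [add_zero]
  have hh : hgt (act (T a 0) p) = hgt p := hgt_T hNO.2.2 p
  have f1 : ∀ x : ℝ, 0 ≤ x + ((-⌊x⌋ : ℤ) : ℝ) ∧ x + ((-⌊x⌋ : ℤ) : ℝ) ≤ 1 := by
    intro x
    have h1 := Int.floor_le x
    have h2 := (Int.lt_floor_add_one x).le
    push_cast
    constructor <;> linarith
  refine ⟨T a 0, T_MO hNO, h _ (T_MO hNO) p hh hp, hh, ?_, ?_, ?_, ?_⟩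
  · rw [hact]
  · have e : ((act (T a 0) p).1 + s).imI = z.imI + ((-⌊z.imI⌋ : ℤ) : ℝ) := by
      have hz2 : z.imI = p.1.imI + s.imI := by rw [hz]; rfl
      rw [hact]
      change (p.1 + a + s).imI = _
      rw [Quaternion.imI_add, Quaternion.imI_add, ha, hq_i]
      push_cast
      linarith
    rw [e]
    exact f1 _
  · have e : ((act (T a 0) p).1 + s).imJ = z.imJ + ((-⌊z.imJ⌋ : ℤ) : ℝ) := by
      have hz2 : z.imJ = p.1.imJ + s.imJ := by rw [hz]; rfl
      rw [hact]
      change (p.1 + a + s).imJ = _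
      rw [Quaternion.imJ_add, Quaternion.imJ_add, ha, hq_j]
      push_cast
      linarith
    rw [e]
    exact f1 _
  · have e : ((act (T a 0) p).1 + s).imK = z.imK + ((-⌊z.imK⌋ : ℤ) : ℝ) := by
      have hz2 : z.imK = p.1.imK + s.imK := by rw [hz]; rfl
      rw [hact]
      change (p.1 + a + s).imK = _
      rw [Quaternion.imK_add, Quaternion.imK_add, ha, hq_k]
      push_cast
      linarith
    rw [e]
    exact f1 _

end Pool.Agent.Helper10.Qc
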