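import Pool.Agent.Helper10.Qc.Stmts

set_option autoImplicit false

namespace Pool.Agent.Helper10.Qc

open Pool.Agent.Helper19.Qh Pool.Agent.Helper19.Qc

theorem col_even (n b c d : ℤ) : Even (n ^ 2 + n * (b + c + d) + b ^ 2 + c ^ 2 + d ^ 2) ↔
    Even n ∧ Even (b + c + d) := by
  simp only [Int.even_add, Int.even_mul, Int.even_pow' (two_ne_zero)]
  tauto

theorem col_evN (n b c d : ℤ) : EvN (hq n b c d) ↔ Even n ∧ Even (b + c + d) := by
  rw [← col_even]
  unfold EvN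
  rw [hq_norm]
  constructor
  · rintro ⟨N, hN⟩
    have : n ^ 2 + n * (b + c + d) + b ^ 2 + c ^ 2 + d ^ 2 = 2 * (N : ℤ) := by exact_mod_cast hN
    rw [this]
    exact even_two_mul _
  · rintro ⟨r, hr⟩
    have h0 : (0 : ℝ) ≤ ((n ^ 2 + n * (b + c + d) + b ^ 2 + c ^ 2 + d ^ 2 : ℤ) : ℝ) := by
      rw [← hq_norm]; positivity
    have h1 : 0 ≤ n ^ 2 + n * (b + c + d) + b ^ 2 + c ^ 2 + d ^ 2 := by exact_mod_cast h0
    rw [hr] at h1 ⊢
    refine ⟨r.toNat, ?_⟩
    have h2 : ((r.toNat : ℤ)) = r := Int.toNat_of_nonneg (by omega)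
    have h3 : ((r.toNat : ℕ) : ℝ) = (r : ℝ) := by exact_mod_cast congrArg (fun z : ℤ => (z : ℝ)) h2
    rw [h3]
    push_cast
    ring

/-- the first bit -/
noncomputable def col_n (a : Q) : ℤ := ⌊2 * a.re⌋

/-- the second bit -/
noncomputable def col_s (a : Q) : ℤ := ⌊a.imI + a.imJ + a.imK - 3 * a.re⌋

theorem col_n_hq (n b c d : ℤ) : col_n (hq n b c d) = n := by
  unfold col_n
  rw [hq_re]
  have : 2 * ((n : ℝ) / 2) = (n : ℝ) := by ring
  rw [this, Int.floor_intCast]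

theorem col_s_hq (n b c d : ℤ) : col_s (hq n b c d) = b + c + d := by
  unfold col_s
  rw [hq_re, hq_i, hq_j, hq_k]
  have : (n : ℝ) / 2 + b + (n / 2 + c) + (n / 2 + d) - 3 * (n / 2) = ((b + c + d : ℤ) : ℝ) := by
    push_cast; ring
  rw [this, Int.floor_intCast]

theorem col_sub (n b c d n' b' c' d' : ℤ) :
    hq n b c d - hq n' b' c' d' = hq (n - n') (b - b') (c - c') (d - d') := by
  apply Quaternion.ext <;> simp only [Quaternion.re_sub, Quaternion.imI_sub,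
    Quaternion.imJ_sub, Quaternion.imK_sub, hq_re, hq_i, hq_j, hq_k] <;> push_cast <;> ring

theorem st_COL (_ : ST_HZ) : ST_COL := by
  have hlt : ∀ a : Q, (2 * (col_n a % 2) + col_s a % 2).toNat < 4 := by
    intro a
    omega
  refine ⟨fun a => ⟨(2 * (col_n a % 2) + col_s a % 2).toNat, hlt a⟩, ?_, ?_⟩
  · rintro a ⟨n, b, c, d, rfl⟩ a' ⟨n', b', c', d', rfl⟩ h
    have h1 := Fin.mk.inj_iff.1 h
    rw [col_n_hq, col_n_hq, col_s_hq, col_s_hq] at h1
    rw [col_sub, col_evN, Int.even_iff, Int.even_iff]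
    omega
  · rintro a ⟨n, b, c, d, rfl⟩
    rw [col_evN, Int.even_iff, Int.even_iff]
    have e : (⟨(2 * (col_n (hq n b c d) % 2) + col_s (hq n b c d) % 2).toNat, hlt _⟩ : Fin 4) = 0 ↔
        (2 * (col_n (hq n b c d) % 2) + col_s (hq n b c d) % 2).toNat = 0 := by
      rw [Fin.ext_iff]
      rfl
    rw [e, col_n_hq, col_s_hq]
    omega

end Pool.Agent.Helper10.Qc
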