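import Pool.Agent.Helper10.Qc.Stmts

set_option autoImplicit false

namespace Pool.Agent.Helper10.Qc

theorem dig_zero' (d h : ℕ) (hd : d < 2 ^ 80) : dig (cons80 d h) 0 = d := by
  have e : dig (cons80 d h) 0 = ((d + 2 ^ 80 * h) >>> (80 * 0)) % 2 ^ 80 := rfl
  rw [e, mul_zero, Nat.shiftRight_zero, Nat.add_mul_mod_self_left, Nat.mod_eq_of_lt hd]

theorem dig_succ' (d h i : ℕ) (hd : d < 2 ^ 80) : dig (cons80 d h) (i + 1) = dig h i := by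
  have e : dig (cons80 d h) (i + 1) = ((d + 2 ^ 80 * h) >>> (80 * (i + 1))) % 2 ^ 80 := rfl
  have e2 : dig h i = (h >>> (80 * i)) % 2 ^ 80 := rfl
  rw [e, e2, Nat.shiftRight_eq_div_pow, Nat.shiftRight_eq_div_pow]
  have e3 : 2 ^ (80 * (i + 1)) = 2 ^ 80 * 2 ^ (80 * i) := by rw [← pow_add]; ring_nf
  rw [e3, ← Nat.div_div_eq_div_mul, Nat.add_mul_div_left _ _ (by positivity),
    Nat.div_eq_of_lt hd, zero_add]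

theorem dig_lt (d h m m' : ℕ) (hm : m' = m + 80) (hd : d < 2 ^ 80) (hh : h < 2 ^ m) :
    cons80 d h < 2 ^ m' := by
  subst hm
  have e : cons80 d h = d + 2 ^ 80 * h := rfl
  rw [e, pow_add]
  have h1 : h + 1 ≤ 2 ^ m := hh
  have h2 : 2 ^ 80 * (h + 1) ≤ 2 ^ 80 * 2 ^ m := Nat.mul_le_mul_left _ h1
  have h3 : 2 ^ 80 * (h + 1) = 2 ^ 80 * h + 2 ^ 80 := by ring
  rw [h3] at h2
  rw [mul_comm (2 ^ m) (2 ^ 80)]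
  omega

theorem st_DIG : ST_DIG := by
  intro A n2 d0 d1 d2 d3 k0 k1 k2 k3 q0 q1 q2 q3 kk a0 a1 a2 a3 a4 a5 a6 a7 a8 a9 a10 a11 a12 a13
    a14 S hS
  rw [hS]
  have l0 := dig_lt q3 kk 80 160 rfl a13 a14
  have l1 := dig_lt q2 _ 160 240 rfl a12 l0
  have l2 := dig_lt q1 _ 240 320 rfl a11 l1
  have l3 := dig_lt q0 _ 320 400 rfl a10 l2
  have l4 := dig_lt k3 _ 400 480 rfl a9 l3
  have l5 := dig_lt k2 _ 480 560 rfl a8 l4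
  have l6 := dig_lt k1 _ 560 640 rfl a7 l5
  have l7 := dig_lt k0 _ 640 720 rfl a6 l6
  have l8 := dig_lt d3 _ 720 800 rfl a5 l7
  have l9 := dig_lt d2 _ 800 880 rfl a4 l8
  have l10 := dig_lt d1 _ 880 960 rfl a3 l9
  have l11 := dig_lt d0 _ 960 1040 rfl a2 l10
  have l12 := dig_lt n2 _ 1040 1120 rfl a1 l11
  have l13 := dig_lt A _ 1120 1200 rfl a0 l12
  refine ⟨l13, dig_zero' _ _ a0, ?_, ?_, ?_, ?_, ?_, ?_, ?_, ?_, ?_, ?_, ?_, ?_, ?_, ?_⟩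
  · rw [dig_succ' _ _ 0 a0, dig_zero' _ _ a1]
  · rw [dig_succ' _ _ 1 a0, dig_succ' _ _ 0 a1, dig_zero' _ _ a2]
  · rw [dig_succ' _ _ 2 a0, dig_succ' _ _ 1 a1, dig_succ' _ _ 0 a2, dig_zero' _ _ a3]
  · rw [dig_succ' _ _ 3 a0, dig_succ' _ _ 2 a1, dig_succ' _ _ 1 a2, dig_succ' _ _ 0 a3,
      dig_zero' _ _ a4]
  · rw [dig_succ' _ _ 4 a0, dig_succ' _ _ 3 a1, dig_succ' _ _ 2 a2, dig_succ' _ _ 1 a3,
      dig_succ' _ _ 0 a4, dig_zero' _ _ a5]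
  · rw [dig_succ' _ _ 5 a0, dig_succ' _ _ 4 a1, dig_succ' _ _ 3 a2, dig_succ' _ _ 2 a3,
      dig_succ' _ _ 1 a4, dig_succ' _ _ 0 a5, dig_zero' _ _ a6]
  · rw [dig_succ' _ _ 6 a0, dig_succ' _ _ 5 a1, dig_succ' _ _ 4 a2, dig_succ' _ _ 3 a3,
      dig_succ' _ _ 2 a4, dig_succ' _ _ 1 a5, dig_succ' _ _ 0 a6, dig_zero' _ _ a7]
  · rw [dig_succ' _ _ 7 a0, dig_succ' _ _ 6 a1, dig_succ' _ _ 5 a2, dig_succ' _ _ 4 a3,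
      dig_succ' _ _ 3 a4, dig_succ' _ _ 2 a5, dig_succ' _ _ 1 a6, dig_succ' _ _ 0 a7,
      dig_zero' _ _ a8]
  · rw [dig_succ' _ _ 8 a0, dig_succ' _ _ 7 a1, dig_succ' _ _ 6 a2, dig_succ' _ _ 5 a3,
      dig_succ' _ _ 4 a4, dig_succ' _ _ 3 a5, dig_succ' _ _ 2 a6, dig_succ' _ _ 1 a7,
      dig_succ' _ _ 0 a8, dig_zero' _ _ a9]
  · rw [dig_succ' _ _ 9 a0, dig_succ' _ _ 8 a1, dig_succ' _ _ 7 a2, dig_succ' _ _ 6 a3,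
      dig_succ' _ _ 5 a4, dig_succ' _ _ 4 a5, dig_succ' _ _ 3 a6, dig_succ' _ _ 2 a7,
      dig_succ' _ _ 1 a8, dig_succ' _ _ 0 a9, dig_zero' _ _ a10]
  · rw [dig_succ' _ _ 10 a0, dig_succ' _ _ 9 a1, dig_succ' _ _ 8 a2, dig_succ' _ _ 7 a3,
      dig_succ' _ _ 6 a4, dig_succ' _ _ 5 a5, dig_succ' _ _ 4 a6, dig_succ' _ _ 3 a7,
      dig_succ' _ _ 2 a8, dig_succ' _ _ 1 a9, dig_succ' _ _ 0 a10, dig_zero' _ _ a11]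
  · rw [dig_succ' _ _ 11 a0, dig_succ' _ _ 10 a1, dig_succ' _ _ 9 a2, dig_succ' _ _ 8 a3,
      dig_succ' _ _ 7 a4, dig_succ' _ _ 6 a5, dig_succ' _ _ 5 a6, dig_succ' _ _ 4 a7,
      dig_succ' _ _ 3 a8, dig_succ' _ _ 2 a9, dig_succ' _ _ 1 a10, dig_succ' _ _ 0 a11,
      dig_zero' _ _ a12]
  · rw [dig_succ' _ _ 12 a0, dig_succ' _ _ 11 a1, dig_succ' _ _ 10 a2, dig_succ' _ _ 9 a3,
      dig_succ' _ _ 8 a4, dig_succ' _ _ 7 a5, dig_succ' _ _ 6 a6, dig_succ' _ _ 5 a7,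
      dig_succ' _ _ 4 a8, dig_succ' _ _ 3 a9, dig_succ' _ _ 2 a10, dig_succ' _ _ 1 a11,
      dig_succ' _ _ 0 a12, dig_zero' _ _ a13]
  · rw [dig_succ' _ _ 13 a0, dig_succ' _ _ 12 a1, dig_succ' _ _ 11 a2, dig_succ' _ _ 10 a3,
      dig_succ' _ _ 9 a4, dig_succ' _ _ 8 a5, dig_succ' _ _ 7 a6, dig_succ' _ _ 6 a7,
      dig_succ' _ _ 5 a8, dig_succ' _ _ 4 a9, dig_succ' _ _ 3 a10, dig_succ' _ _ 2 a11,
      dig_succ' _ _ 1 a12, dig_succ' _ _ 0 a13]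
    have e : dig kk 0 = (kk >>> (80 * 0)) % 2 ^ 80 := rfl
    rw [e, mul_zero, Nat.shiftRight_zero, Nat.mod_eq_of_lt a14]

end Pool.Agent.Helper10.Qc
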