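import Pool.Agent.Helper10.Qc.Stmts

set_option autoImplicit false

namespace Pool.Agent.Helper10.Qc

open Pool.Agent.Helper19.Qh Pool.Agent.Helper19.Qc

theorem far_r (ζ β : Q) (c s : ℝ) (hs : 0 ≤ s) (hc : c ≤ ‖β‖ ^ 2) (hζ : ‖ζ‖ ^ 2 ≤ 1 / 2)
    (h1 : (s + 708 / 1000) ^ 2 ≤ c) : s ^ 2 ≤ ‖ζ - β‖ ^ 2 := by
  have hz : ‖ζ‖ ≤ 708 / 1000 := by
    nlinarith [norm_nonneg ζ]
  have hb : s + 708 / 1000 ≤ ‖β‖ := by
    nlinarith [norm_nonneg β]
  have h2 : ‖β‖ ≤ ‖ζ - β‖ + ‖ζ‖ := by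
    have := norm_sub_le ζ (ζ - β)
    rw [sub_sub_cancel] at this
    linarith
  have h3 : s ≤ ‖ζ - β‖ := by linarith
  nlinarith

theorem st_FAR : ST_FAR := by
  intro h ζ β hh hζ
  refine ⟨fun hb => ?_, fun hb => ?_, fun hb => ?_⟩
  · have h1 := far_r ζ β 4 (12 / 10) (by norm_num) hb hζ (by norm_num)
    set r := ‖ζ - β‖ ^ 2
    unfold Bv
    have hr : 125 / 100 ≤ r := by
      by_contra hcon
      push Not at hcon
      have h2 := far_r ζ β 4 (129 / 100) (by norm_num) hb hζ (by norm_num)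
      have h3 : (129 / 100 : ℝ) ^ 2 ≤ r := h2
      linarith [show (125 / 100 : ℝ) ≤ (129 / 100) ^ 2 by norm_num]
    push_cast
    nlinarith [sq_nonneg (h - r)]
  · have h2 := far_r ζ β 3 (1 : ℝ) (by norm_num) hb hζ (by norm_num)
    set r := ‖ζ - β‖ ^ 2
    have hr : 625 / 1000 ≤ r := by
      have h3 : (1 : ℝ) ^ 2 ≤ r := h2
      linarith
    unfold Bv
    push_cast
    nlinarith [sq_nonneg (h - r)]
  · have h2 := far_r ζ β (5 / 3) (582 / 1000 : ℝ) (by norm_num) hb hζ (by norm_num)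
    have hr : 338 / 1000 ≤ ‖ζ - β‖ ^ 2 := by
      linarith [show (338 / 1000 : ℝ) ≤ (582 / 1000) ^ 2 by norm_num]
    set r := ‖ζ - β‖ ^ 2 with hrd
    unfold Bv
    rw [← hrd]
    push_cast
    have h4 : (h + 338 / 1000) ^ 2 ≤ (h + r) ^ 2 := by nlinarith
    nlinarith

end Pool.Agent.Helper10.Qc
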