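import Pool.Agent.Helper10.Qc.Stmts

set_option autoImplicit false

namespace Pool.Agent.Helper10.Qc

theorem mkt_zero (d h : ℕ) (hd : d < 2 ^ 1200) : big (d + 2 ^ 1200 * h) 0 = d := by
  have e : big (d + 2 ^ 1200 * h) 0 = ((d + 2 ^ 1200 * h) >>> (1200 * 0)) % 2 ^ 1200 := rfl
  rw [e, mul_zero, Nat.shiftRight_zero, Nat.add_mul_mod_self_left, Nat.mod_eq_of_lt hd]

theorem mkt_succ (d h i : ℕ) (hd : d < 2 ^ 1200) :
    big (d + 2 ^ 1200 * h) (i + 1) = big h i := by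
  have e : big (d + 2 ^ 1200 * h) (i + 1) =
    ((d + 2 ^ 1200 * h) >>> (1200 * (i + 1))) % 2 ^ 1200 := rfl
  have e2 : big h i = (h >>> (1200 * i)) % 2 ^ 1200 := rfl
  rw [e, e2, Nat.shiftRight_eq_div_pow, Nat.shiftRight_eq_div_pow]
  have e3 : 2 ^ (1200 * (i + 1)) = 2 ^ 1200 * 2 ^ (1200 * i) := by
    rw [← pow_add, Nat.mul_succ, Nat.add_comm]
  rw [e3, ← Nat.div_div_eq_div_mul, Nat.add_mul_div_left _ _ (Nat.pow_pos (by decide)),
    Nat.div_eq_of_lt hd, zero_add]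

theorem st_MKT : ST_MKT := by
  intro z0 z1 z2 z3 W
  induction W with
  | nil =>
    intro _ i hi
    exact absurd hi (Nat.not_lt_zero i)
  | cons c l ih =>
    intro h i hi
    have hc : mkP z0 z1 z2 z3 c < 2 ^ 1200 := h c List.mem_cons_self
    have e : mkT z0 z1 z2 z3 (c :: l) = mkP z0 z1 z2 z3 c + 2 ^ 1200 * mkT z0 z1 z2 z3 l := rfl
    rw [e]
    cases i with
    | zero => exact mkt_zero _ _ hc
    | succ j =>
      rw [mkt_succ _ _ _ hc]
      exact ih (fun x hx => h x (List.mem_cons_of_mem _ hx)) j (Nat.lt_of_succ_lt_succ hi)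

end Pool.Agent.Helper10.Qc
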