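import Pool.Agent.Helper10.Qc.Stmts

set_option autoImplicit false

namespace Pool.Agent.Helper10.Qc

open Pool.Agent.Helper19.Qh Pool.Agent.Helper19.Qc

theorem om_w0 : (w0 : V 1) ∈ MO := ⟨HO.one_mem, HO.zero_mem, HO.zero_mem⟩

theorem st_OM : ST_OM := by
  rintro w ⟨γ, hγ, rfl⟩
  exact (hγ.2 _).2 om_w0

theorem st_OT : ST_OT := by
  intro a b h
  have h1 : (JJ * 1) ∈ Gam MO := (Gam MO).mul_mem JJ_Gam (Gam MO).one_mem
  have h2 : T a b (JJ w0) ∈ Orb MO := Orb_smul (T_MO h) (Orb_smul JJ_Gam (w0_mem MO))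
  have h3 : T a b (JJ w0) = ((a, b, 1) : V 1) := by
    rw [JJ_apply, T_apply]
    refine Prod.ext ?_ (Prod.ext ?_ ?_)
    · change (0 : Q) - hin (0 : E 1) b + 1 * a = a
      rw [hin1]
      simp
    · change (0 : E 1) + (1 : Q) • b = b
      simp
    · rfl
  rwa [h3] at h2

theorem st_OP : ST_OP := by
  intro w hw q hq w' hw' e
  obtain ⟨γ, hγ, hw0⟩ := hw
  have hi := (Gam MO).inv_mem hγ
  have e2 : (w0 : V 1) = q • (γ⁻¹ w') := by
    rw [← map_smul, ← e, hw0]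
    exact (γ.symm_apply_apply w0).symm
  have hm : γ⁻¹ w' ∈ MO := (hi.2 _).2 hw'
  have e3 : (1 : Q) = q * (γ⁻¹ w').1 := congrArg Prod.fst e2
  have hx : (γ⁻¹ w').1 ∈ HO := hm.1
  have q0 : q ≠ 0 := by
    rintro rfl
    rw [zero_mul] at e3
    exact one_ne_zero e3
  have x0 : (γ⁻¹ w').1 ≠ 0 := by
    intro h
    rw [h, mul_zero] at e3
    exact one_ne_zero e3
  have n1 := HO_norm hq q0
  have n2 := HO_norm hx x0
  have n3 : (1 : ℝ) = ‖q‖ * ‖(γ⁻¹ w').1‖ := by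
    rw [← norm_mul, ← e3, norm_one]
  nlinarith

theorem st_O0 : ST_O0 := by
  intro w hw h0
  have h1 := orbc_mul (herm_Orb hw) h0
  have hm := st_OM w hw
  exact ⟨w.1, hm.1, st_OP w hw w.1 hm.1 w0 om_w0 h1, h1⟩

theorem st_OU (h : ST_DIAG) : ST_OU := by
  intro u hu hu1 w hw
  obtain ⟨g, hg, hg2, -⟩ := h u hu 1 HO.one_mem hu1 norm_one
  obtain ⟨γ, hγ, rfl⟩ := hw
  have e1 : u • γ w0 = γ (g w0) := by
    rw [← map_smul]
    congr 1
    rw [hg2, orbc_smul_w0]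
    refine Prod.ext ?_ (Prod.ext ?_ ?_)
    · change u = 1 * u
      rw [one_mul]
    · change (0 : E 1) = e1 ((0 : Q) * 1)
      rw [zero_mul]
      ext1 i
      rfl
    · change (0 : Q) = 0 * u
      rw [zero_mul]
  rw [e1]
  exact Orb_smul hγ (Orb_smul hg (w0_mem MO))

end Pool.Agent.Helper10.Qc
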