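import Pool.Agent.Helper10.Qc.Stmts

set_option autoImplicit false

namespace Pool.Agent.Helper10.Qc

open Pool.Agent.Helper19.Qh Pool.Agent.Helper19.Qc

/-- the lower bound of `|1024 ζ₃|` -/
def out_m (z3 l3 h3 : ℕ) : ℕ := (64 * z3 + l3 - 576) + (576 - (64 * z3 + h3))

theorem out_eq (z0 z1 z2 z3 l0 h0 l1 h1 l2 h2 l3 h3 : ℕ)
    (h : out z0 z1 z2 z3 l0 h0 l1 h1 l2 h2 l3 h3 = true) :
    64 * z1 + h1 < out_m z3 l3 h3 + 576 ∨ 64 * z2 + h2 < out_m z3 l3 h3 + 576 ∨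
    1088 < 64 * z0 + l0 ∨
    64 * z0 + h0 < (out_m z3 l3 h3 + max (out_m z3 l3 h3) (64 * z1 + l1 - 576)) +
      (576 + max (out_m z3 l3 h3) (64 * z2 + l2 - 576)) := by
  have e : out z0 z1 z2 z3 l0 h0 l1 h1 l2 h2 l3 h3 =
    cond (Nat.blt (64 * z1 + h1) (out_m z3 l3 h3 + 576)) true
    (cond (Nat.blt (64 * z2 + h2) (out_m z3 l3 h3 + 576)) true
    (cond (Nat.blt 1088 (64 * z0 + l0)) true
      (Nat.blt (64 * z0 + h0)
        ((out_m z3 l3 h3 + max (out_m z3 l3 h3) (64 * z1 + l1 - 576)) +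
          (576 + max (out_m z3 l3 h3) (64 * z2 + l2 - 576)))))) := rfl
  rw [e] at h
  by_cases c1 : 64 * z1 + h1 < out_m z3 l3 h3 + 576
  · exact Or.inl c1
  · by_cases c2 : 64 * z2 + h2 < out_m z3 l3 h3 + 576
    · exact Or.inr (Or.inl c2)
    · by_cases c3 : 1088 < 64 * z0 + l0
      · exact Or.inr (Or.inr (Or.inl c3))
      · have f : ∀ a b : ℕ, ¬ a < b → Nat.blt a b = false := by
          intro a b hab
          rw [← Bool.not_eq_true, Nat.blt_eq]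
          exact hab
        rw [f _ _ c1, f _ _ c2, f _ _ c3] at h
        simp only [cond_false] at h
        rw [Nat.blt_eq] at h
        exact Or.inr (Or.inr (Or.inr h))

theorem out_le (z3 l3 h3 : ℕ) (x : ℝ) (hl : (l3 : ℝ) ≤ x) (hh : x ≤ h3) :
    (out_m z3 l3 h3 : ℝ) ≤ |64 * (z3 : ℝ) + x - 576| := by
  have hlh : l3 ≤ h3 := by exact_mod_cast hl.trans hh
  unfold out_m
  rcases le_total 576 (64 * z3 + l3) with h1 | h1
  · have h2 : 576 - (64 * z3 + h3) = 0 := by omega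
    rw [h2, add_zero, Nat.cast_sub h1]
    push_cast
    refine le_trans ?_ (le_abs_self _)
    linarith
  · have h2 : 64 * z3 + l3 - 576 = 0 := by omega
    rw [h2, zero_add]
    rcases le_total (64 * z3 + h3) 576 with h3' | h3'
    · rw [Nat.cast_sub h3']
      push_cast
      refine le_trans ?_ (neg_le_abs _)
      linarith
    · have h4 : 576 - (64 * z3 + h3) = 0 := by omega
      rw [h4]
      simp

theorem out_max (m a : ℕ) (y : ℝ) (h1 : (m : ℝ) ≤ y) (h2 : (a : ℝ) - 576 ≤ y) :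
    ((max m (a - 576) : ℕ) : ℝ) ≤ y := by
  rcases max_cases m (a - 576) with h | h
  · rw [h.1]; exact h1
  · rw [h.1]
    rcases le_total 576 a with h3 | h3
    · rw [Nat.cast_sub h3]
      push_cast
      exact h2
    · rw [Nat.sub_eq_zero_of_le h3]
      have : (0 : ℝ) ≤ m := Nat.cast_nonneg m
      push_cast
      linarith

theorem st_OUT : ST_OUT := by
  intro z0 z1 z2 z3 l0 h0 l1 h1 l2 h2 l3 h3 h e b0 b1 b2 b3 hD
  obtain ⟨d1, d2, d3, d4⟩ := hD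
  have e0 : (zE z0 z1 z2 z3 e).re = (64 * (z0 : ℝ) + e 0 - 576) / 1024 := rfl
  have e1 : (zE z0 z1 z2 z3 e).imI = (64 * (z1 : ℝ) + e 1 - 576) / 1024 := rfl
  have e2 : (zE z0 z1 z2 z3 e).imJ = (64 * (z2 : ℝ) + e 2 - 576) / 1024 := rfl
  have e3 : (zE z0 z1 z2 z3 e).imK = (64 * (z3 : ℝ) + e 3 - 576) / 1024 := rfl
  rw [e0] at d1
  rw [e0, e1, e2, e3] at d2
  rw [e1, e3] at d3
  rw [e2, e3] at d4
  have hm := out_le z3 l3 h3 (e 3) b3.1 b3.2
  set m := out_m z3 l3 h3 with hmd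
  have ha : |(64 * (z3 : ℝ) + e 3 - 576) / 1024| = |64 * (z3 : ℝ) + e 3 - 576| / 1024 := by
    rw [abs_div, abs_of_pos (by norm_num : (0 : ℝ) < 1024)]
  rw [ha] at d2 d3 d4
  have d2a := le_abs_self ((64 * (z1 : ℝ) + e 1 - 576) / 1024)
  have d2b := le_abs_self ((64 * (z2 : ℝ) + e 2 - 576) / 1024)
  have m1 : (m : ℝ) ≤ 64 * (z1 : ℝ) + e 1 - 576 := by linarith
  have m2 : (m : ℝ) ≤ 64 * (z2 : ℝ) + e 2 - 576 := by linarith
  have x1 := out_max m (64 * z1 + l1) _ m1 (by push_cast; linarith [b1.1])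
  have x2 := out_max m (64 * z2 + l2) _ m2 (by push_cast; linarith [b2.1])
  rcases out_eq _ _ _ _ _ _ _ _ _ _ _ _ h with c | c | c | c
  · have c' : (64 * (z1 : ℝ) + h1) < (m : ℝ) + 576 := by exact_mod_cast c
    linarith [b1.2]
  · have c' : (64 * (z2 : ℝ) + h2) < (m : ℝ) + 576 := by exact_mod_cast c
    linarith [b2.2]
  · have c' : (1088 : ℝ) < 64 * (z0 : ℝ) + l0 := by exact_mod_cast c
    linarith [b0.1]
  · have c' : (64 * (z0 : ℝ) + h0) < ((m : ℝ) + ((max m (64 * z1 + l1 - 576) : ℕ) : ℝ)) +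
        (576 + ((max m (64 * z2 + l2 - 576) : ℕ) : ℝ)) := by exact_mod_cast c
    linarith [b0.2]

end Pool.Agent.Helper10.Qc
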