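import Pool.Agent.Helper10.Qc.Stmts

set_option autoImplicit false

namespace Pool.Agent.Helper10.Qc

open Pool.Agent.Helper19.Qh Pool.Agent.Helper19.Qc

theorem ps3_psi (n : ℕ) (h1 : n ≠ 1) (h2 : n ≠ 2) (x : ℝ) : Psi n x = (max x 0) ^ 2 := by
  match n, h1, h2 with
  | 0, _, _ => rfl
  | 1, h1, _ => exact absurd rfl h1
  | 2, _, h2 => exact absurd rfl h2
  | k + 3, _, _ => rfl

theorem ps3_ff (n : ℕ) (h1 : n ≠ 1) (h2 : n ≠ 2) (x : ℕ) : FF n x = x * x / sS + 1 := by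
  match n, h1, h2 with
  | 0, _, _ => rfl
  | 1, h1, _ => exact absurd rfl h1
  | 2, _, h2 => exact absurd rfl h2
  | k + 3, _, _ => rfl

theorem ps3_mono : Monotone fun x : ℝ => (max x 0) ^ 2 := by
  intro x y hxy
  have h1 : max x 0 ≤ max y 0 := max_le_max hxy le_rfl
  have h2 : 0 ≤ max x 0 := le_max_right _ _
  exact pow_le_pow_left₀ h2 h1 2

theorem ps3_conv : ConvexOn ℝ Set.univ fun x : ℝ => (max x 0) ^ 2 := by
  have h : ConvexOn ℝ Set.univ fun x : ℝ => max x 0 :=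
    (convexOn_id convex_univ).sup (convexOn_const 0 convex_univ)
  exact h.pow (fun x _ => le_max_right _ _) 2

theorem ps3_floor (x : ℕ) : (sS : ℝ) * (max ((x : ℝ) / sS) 0) ^ 2 ≤ ((x * x / sS + 1 : ℕ) : ℝ) := by
  have hS : (0 : ℝ) < (sS : ℝ) := by
    have : 0 < sS := by decide
    exact_mod_cast this
  rw [max_eq_left (by positivity)]
  have h1 : x * x < sS * (x * x / sS + 1) := by
    have := Nat.lt_div_mul_add (a := x * x) (b := sS) (by decide)
    calc x * x < x * x / sS * sS + sS := this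
      _ = sS * (x * x / sS + 1) := by ring
  have h2 : ((x * x : ℕ) : ℝ) ≤ ((sS * (x * x / sS + 1) : ℕ) : ℝ) := by exact_mod_cast h1.le
  rw [Nat.cast_mul, Nat.cast_mul] at h2
  have h3 : (sS : ℝ) * ((x : ℝ) / sS) ^ 2 = (x : ℝ) * x / sS := by
    field_simp
  rw [h3, div_le_iff₀ hS]
  linarith

theorem st_PS3 : ST_PS3 := by
  intro n h1 h2
  have e : Psi n = fun x : ℝ => (max x 0) ^ 2 := funext (ps3_psi n h1 h2)
  refine ⟨ps3_psi n h1 h2, ?_, ?_, ?_, fun x => ?_⟩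
  · rw [e]; exact ps3_mono
  · rw [e]; exact ps3_conv
  · rw [e]; simp
  · rw [e, ps3_ff n h1 h2]
    exact ps3_floor x

end Pool.Agent.Helper10.Qc
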