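import Pool.Agent.Helper5.Qc.COL

set_option autoImplicit false

namespace Pool.Agent.Helper10.Qc

open Pool.Agent.Helper19.Qh Pool.Agent.Helper19.Qc

theorem pi_rho : rho 1 = hq 2 0 (-1) (-1) := by
  change (⟨1, 1, 0, 0⟩ : Q) = _
  apply Quaternion.ext <;> simp only [hq_re, hq_i, hq_j, hq_k] <;> push_cast <;> ring

theorem st_PI (_ : ST_HZ) : ST_PI := by
  intro a
  constructor
  · rintro ⟨⟨n, b, c, d, rfl⟩, he⟩
    rw [col_evN] at he
    obtain ⟨⟨m, hm⟩, ⟨t, ht⟩⟩ := he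
    refine ⟨hq (n + b) (-m) (t - b) (t - b - c - m), hq_mem _ _ _ _, ?_⟩
    have hn : (n : ℝ) = m + m := by exact_mod_cast hm
    have hd : (d : ℝ) = t + t - b - c := by
      have : d = t + t - b - c := by omega
      exact_mod_cast this
    rw [pi_rho]
    apply Quaternion.ext <;> simp only [Quaternion.re_mul, Quaternion.imI_mul, Quaternion.imJ_mul,
      Quaternion.imK_mul, hq_re, hq_i, hq_j, hq_k] <;> push_cast <;> rw [hn] <;>
      try rw [hd]
    all_goals ring
  · rintro ⟨q, hq', rfl⟩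
    refine ⟨?_, ?_⟩
    · rw [pi_rho]
      exact HO.mul_mem (hq_mem _ _ _ _) hq'
    · obtain ⟨N, hN⟩ := HO_norm_sq hq'
      refine ⟨N, ?_⟩
      rw [norm_mul, mul_pow, hN, pi_rho, hq_norm]
      norm_num

end Pool.Agent.Helper10.Qc
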